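import Pool.Agent.H82.RD.Targets
import Pool.Agent.H82.RD.Basic

/-!
# Row DC2 of the board rd82_modules: the determinant in the second case
-/

set_option autoImplicit false

namespace Pool.Agent.H33.RD

open Pool.Agent.H82.RD

/-- the columns belong to the class -/
theorem dc2_col (hDXI : T_DXI) (hDXL : T_DXL) {R : Type} [CommRing R] (ϖ : R) (v A B E Jm : ℕ)
    (y : Cl (v + 1) A B → Fin (v + 1) → R) (EE : Cl (v + 1) A B → R)
    (z : Cl (v + 1) A B → ℕ) (E₀ : R) (Q : ℕ → R) (i₁ : Fin (v + 1)) (ξ : R) (η : Fin v → R)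
    (hz : ∀ k, z k < Jm) (hQ : ∀ b, ϖ ∣ Q b)
    (hE : ∀ r (b : ℕ), ϖ ^ E ∣ EE r ^ b - E₀ ^ b * (1 + Q b) ^ z r)
    (hy : ∀ r, ϖ ^ E ∣ y r i₁ - (ξ * (z r : R) + ∑ j, η j * y r (i₁.succAbove j)))
    (c : Cl (v + 1) A B) :
    Xp ϖ E Jm (fun r j => y r (i₁.succAbove j)) z A (c.1.1 i₁)
      (fun r => (∏ i, y r i ^ c.1.1 i) * EE r ^ (c.2 : ℕ)) := by
  obtain ⟨-, -, h3, h4⟩ := hDXL R ϖ E Jm (Cl (v + 1) A B) v (fun r j => y r (i₁.succAbove j)) z
  have h1 := hDXI R ϖ E Jm (Cl (v + 1) A B) v (fun r j => y r (i₁.succAbove j)) z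
    (fun r => y r i₁) ξ η (E₀ ^ (c.2 : ℕ)) (Q c.2) hz (hQ _) hy (fun j => c.1.1 (i₁.succAbove j))
    (c.1.1 i₁)
  have hA : ∑ j, c.1.1 (i₁.succAbove j) + c.1.1 i₁ ≤ A := by
    have h := mem_Sx.1 c.1.2
    rw [Fin.sum_univ_succAbove _ i₁] at h
    omega
  refine h4 A (c.1.1 i₁) _ _ ?_ (h3 _ _ A (c.1.1 i₁) _ hA le_rfl h1)
  intro r
  obtain ⟨q, hq⟩ := hE r (c.2 : ℕ)
  refine ⟨-((∏ i, y r i ^ c.1.1 i) * q), ?_⟩
  have h5 : (∏ j, y r (i₁.succAbove j) ^ c.1.1 (i₁.succAbove j)) * y r i₁ ^ c.1.1 i₁ =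
      ∏ i, y r i ^ c.1.1 i := by
    rw [Fin.prod_univ_succAbove _ i₁, mul_comm]
  rw [h5]
  linear_combination (-(∏ i, y r i ^ c.1.1 i)) * hq

theorem pf_DC2 (hDLA : T_DLA) (hDCW : T_DCW) (hDXI : T_DXI) (hDXL : T_DXL) (hDCA : T_DCA) :
    T_DC2 := by
  classical
  intro R _ ϖ v A B E T N y EE z E₀ Q i₁ ξ η hA hB hT hTE hN hQ hE hy
  set Jm := Finset.univ.sup z + 1 with hJm
  have hz : ∀ k, z k < Jm := fun k => Nat.lt_succ_of_le (Finset.le_sup (Finset.mem_univ k))
  have hcol := dc2_col hDXI hDXL ϖ v A B E Jm y EE z E₀ Q i₁ ξ η hz hQ hE hy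
  choose Cc hC1 hC2 using hcol
  choose Rq hRq using hC2
  -- the data
  set G : Cl (v + 1) A B → (↥(Sx v A) × Fin Jm) ⊕ Cl (v + 1) A B → R := fun r i =>
    Sum.elim (fun p => (∏ j, y r (i₁.succAbove j) ^ p.1.1 j) * ((z r).choose p.2 : R))
      (fun c => Rq c r) i with hG
  set Cm : (↥(Sx v A) × Fin Jm) ⊕ Cl (v + 1) A B → Cl (v + 1) A B → R := fun i c =>
    Sum.elim (fun p => Cc c p.1.1 p.2) (fun c' => if c' = c then ϖ ^ E else 0) i with hCm
  set om : (↥(Sx v A) × Fin Jm) ⊕ Cl (v + 1) A B → ℕ := fun i =>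
    Sum.elim (fun p => (p.2 : ℕ)) (fun _ => E) i with hom
  set de : Cl (v + 1) A B → ℕ := fun c => c.1.1 i₁ with hde
  have hdeA : ∀ c, de c ≤ A := fun c => by
    have h := mem_Sx.1 c.1.2
    have h2 := Finset.single_le_sum (f := c.1.1) (fun _ _ => Nat.zero_le _) (Finset.mem_univ i₁)
    exact h2.trans h
  have hmat : im A B y EE = Matrix.of fun r c => ∑ i, G r i * Cm i c := by
    ext r c
    simp only [im, Matrix.of_apply]
    rw [Fintype.sum_sum_type, Fintype.sum_prod_type]
    simp only [hG, hCm, Sum.elim_inl, Sum.elim_inr]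
    rw [Finset.sum_eq_single_of_mem c (Finset.mem_univ c)
      (fun b _ hb => by rw [if_neg hb, mul_zero]), if_pos rfl]
    have h1 := hRq c r
    have h2 : ∑ x : ↥(Sx v A), ∑ J : Fin Jm,
        (∏ j, y r (i₁.succAbove j) ^ x.1 j) * ((z r).choose J : R) * Cc c x.1 J =
        ∑ c' ∈ Sx v A, ∑ J ∈ Finset.range Jm,
          Cc c c' J * ((∏ j, y r (i₁.succAbove j) ^ c' j) * ((z r).choose J : R)) := by
      rw [← Finset.sum_coe_sort (Sx v A)]
      refine Finset.sum_congr rfl fun x _ => ?_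
      rw [Finset.sum_range]
      exact Finset.sum_congr rfl fun J _ => mul_comm _ _
    rw [h2]
    linear_combination h1
  rw [hmat]
  refine hDLA R ϖ _ _ G Cm om de N ?_ ?_
  · rintro (⟨c', J⟩ | c') c
    · exact hC1 c c'.1 J
    · simp only [hCm, hom, Sum.elim_inr]
      by_cases h : c' = c
      · rw [if_pos h]
        exact pow_dvd_pow _ (Nat.sub_le _ _)
      · rw [if_neg h]
        exact dvd_zero _
  · intro f hf
    have hN' : (Sx v A).card = (A + v).choose v := hDCA v A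
    have hM : Fintype.card (Cl (v + 1) A B) = (A + (v + 1)).choose (v + 1) * B := by
      rw [Fintype.card_prod, Fintype.card_coe, hDCA (v + 1) A, Fintype.card_fin]
    have h1 := hDCW (Cl (v + 1) A B) _ om (Sx v A).card T ?_ f hf
    · set M := Fintype.card (Cl (v + 1) A B) with hMdef
      have h2 : (A + v + 1) * (A + v).choose v = (A + (v + 1)).choose (v + 1) * (v + 1) :=
        Nat.add_one_mul_choose_eq (A + v) v
      have h3 : (v + 1) * M = B * ((A + v + 1) * (Sx v A).card) := by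
        rw [hM, hN', h2]
        ring
      have h4 : (Sx v A).card * (T + 1) ≤ M := by
        have h5 : (v + 1) * ((Sx v A).card * (T + 1)) ≤ (v + 1) * M := by
          rw [h3]
          have h6 : (v + 1) * (T + 1) ≤ B * (A + v + 1) := by nlinarith
          calc (v + 1) * ((Sx v A).card * (T + 1)) = (Sx v A).card * ((v + 1) * (T + 1)) := by ring
            _ ≤ (Sx v A).card * (B * (A + v + 1)) := Nat.mul_le_mul_left _ h6
            _ = B * ((A + v + 1) * (Sx v A).card) := by ring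
        exact Nat.le_of_mul_le_mul_left h5 (Nat.succ_pos v)
      have h7 : (Sx v A).card * (T * (T + 1)) ≤ M * T := by
        calc (Sx v A).card * (T * (T + 1)) = (Sx v A).card * (T + 1) * T := by ring
          _ ≤ M * T := Nat.mul_le_mul_right T h4
      have h8 : ∑ j, de j ≤ M * A := by
        have := Finset.sum_le_card_nsmul Finset.univ de A (fun c _ => hdeA c)
        rwa [Finset.card_univ, smul_eq_mul] at this
      have h9 : 2 * N + 2 * A * M ≤ M * T := by
        rw [hM]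
        have e1 : B * (A + (v + 1)).choose (v + 1) = (A + (v + 1)).choose (v + 1) * B :=
          mul_comm _ _
        rw [e1] at hN
        exact hN
      nlinarith
    · intro t ht1 ht2
      have h5 : (Finset.univ.filter fun c : (↥(Sx v A) × Fin Jm) ⊕ Cl (v + 1) A B => om c < t) ⊆
          ((Finset.univ : Finset ↥(Sx v A)) ×ˢ
            (Finset.univ.filter fun J : Fin Jm => (J : ℕ) < t)).map ⟨Sum.inl, Sum.inl_injective⟩ := by
        rintro (⟨c', J⟩ | c) hc
        · rw [Finset.mem_filter] at hc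
          refine Finset.mem_map.2 ⟨(c', J), ?_, rfl⟩
          exact Finset.mem_product.2 ⟨Finset.mem_univ _, Finset.mem_filter.2 ⟨Finset.mem_univ _, hc.2⟩⟩
        · rw [Finset.mem_filter] at hc
          have h6 : E < t := hc.2
          omega
      have h6 : (Finset.univ.filter fun J : Fin Jm => (J : ℕ) < t).card ≤ t := by
        have h7 : ((Finset.univ.filter fun J : Fin Jm => (J : ℕ) < t).map Fin.valEmbedding) ⊆
            Finset.range t := by
          intro n hn
          obtain ⟨J, hJ, rfl⟩ := Finset.mem_map.1 hn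
          exact Finset.mem_range.2 (Finset.mem_filter.1 hJ).2
        have h8 := Finset.card_le_card h7
        rwa [Finset.card_map, Finset.card_range] at h8
      refine (Finset.card_le_card h5).trans ?_
      rw [Finset.card_map, Finset.card_product, Finset.card_univ, Fintype.card_coe]
      exact Nat.mul_le_mul_left _ h6

end Pool.Agent.H33.RD
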