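import Mathlib
import Pool.Agent.H91.RD.Targets2

/-!
# MP_609556_an: a fast front forces `f'(0) < c² / 4` (`T_F0`)
-/

open MeasureTheory Set Filter Topology Metric

namespace Pool.Agent.H33.RD

open Pool.Agent.H91.RD

theorem front_strictAnti {f φ : ℝ → ℝ} {c lam : ℝ} (h : Front f c lam φ) : StrictAnti φ :=
  strictAnti_of_deriv_neg h.dec

theorem front_pos {f φ : ℝ → ℝ} {c lam : ℝ} (h : Front f c lam φ) (z : ℝ) : 0 < φ z := by
  have hanti := front_strictAnti h
  have h1 : φ (z + 1) < φ z := hanti (by linarith)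
  have h2 : 0 ≤ φ (z + 1) := by
    apply le_of_tendsto h.right
    filter_upwards [eventually_ge_atTop (z + 1)] with y hy
    exact hanti.antitone hy
  linarith

theorem front_lt_one {f φ : ℝ → ℝ} {c lam : ℝ} (h : Front f c lam φ) (z : ℝ) : φ z < 1 := by
  have hanti := front_strictAnti h
  have h1 : φ z < φ (z - 1) := hanti (by linarith)
  have h2 : φ (z - 1) ≤ 1 := by
    apply ge_of_tendsto h.left
    filter_upwards [eventually_le_atBot (z - 1)] with y hy
    exact hanti.antitone hy
  linarith

/-- F0 -/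
theorem f0 : T_F0 := by
  intro f φ c lam hf h
  by_contra hcon
  push Not at hcon
  set m := derivWithin f (Icc 0 1) 0 with hm
  set κ := (lam - c / 2) / 2 with hκ
  have hκ0 : 0 < κ := by have := h.fast; rw [hκ]; linarith
  have hpos := front_pos h
  have hlt := front_lt_one h
  -- derivatives of the front
  have hd1 : ∀ z, HasDerivAt φ (deriv φ z) z := fun z =>
    (h.c2.differentiable (by norm_num) z).hasDerivAt
  have hc1 : ContDiff ℝ 1 (deriv φ) := by
    have h1 := h.c2
    rw [show (2 : WithTop ℕ∞) = 1 + 1 from rfl, contDiff_succ_iff_deriv] at h1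
    exact h1.2.2
  have hd2 : ∀ z, HasDerivAt (deriv φ) (deriv (deriv φ) z) z := fun z =>
    (hc1.differentiable (by norm_num) z).hasDerivAt
  set q : ℝ → ℝ := fun z => -(deriv φ z) / φ z with hq
  have hq' : ∀ z, HasDerivAt q (q z ^ 2 - c * q z + f (φ z) / φ z) z := by
    intro z
    have h1 := ((hd2 z).neg).div (hd1 z) (hpos z).ne'
    have e1 : (-(deriv (deriv φ) z) * φ z - -(deriv φ z) * deriv φ z) / φ z ^ 2
        = q z ^ 2 - c * q z + f (φ z) / φ z := by
      have h2 : deriv (deriv φ) z = -(c * deriv φ z) - f (φ z) := by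
        have := h.eqn z; linarith
      have h3 := (hpos z).ne'
      rw [h2, hq]
      field_simp
      ring
    rw [← e1]
    exact h1
  -- `f` near `0`
  have hdf : HasDerivWithinAt f m (Icc 0 1) 0 :=
    ((hf.smooth.differentiableOn (by norm_num)) 0 (by simp)).hasDerivWithinAt
  have hfs : ∀ᶠ s in 𝓝[Icc 0 1] (0 : ℝ), (m - κ ^ 2 / 2) * s ≤ f s := by
    have h1 := hdf.isLittleO
    have h2 := h1.def (show 0 < κ ^ 2 / 2 by positivity)
    filter_upwards [h2, self_mem_nhdsWithin] with s hs hsI
    rw [hf.zero] at hs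
    simp only [sub_zero, smul_eq_mul, Real.norm_eq_abs] at hs
    rw [abs_of_nonneg hsI.1] at hs
    have h3 := (abs_le.1 hs).1
    nlinarith
  have hφz : Tendsto φ atTop (𝓝[Icc 0 1] 0) := by
    rw [tendsto_nhdsWithin_iff]
    exact ⟨h.right, Eventually.of_forall (fun z => ⟨(hpos z).le, (hlt z).le⟩)⟩
  obtain ⟨z1, hz1⟩ := eventually_atTop.1 (hφz.eventually hfs)
  have hfφ : ∀ z ≥ z1, c ^ 2 / 4 - κ ^ 2 / 2 ≤ f (φ z) / φ z := by
    intro z hz
    rw [le_div_iff₀ (hpos z)]
    have h1 := hz1 z hz
    have h2 := mul_le_mul_of_nonneg_right hcon (hpos z).le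
    linarith
  -- `q` becomes large
  obtain ⟨z2, hz12, hz2⟩ : ∃ z2 ≥ z1, c / 2 + κ ≤ q z2 := by
    by_contra hno
    push Not at hno
    set g : ℝ → ℝ := fun z => φ z * Real.exp ((c / 2 + κ) * z) with hg
    have hg' : ∀ z, HasDerivAt g (φ z * Real.exp ((c / 2 + κ) * z) * (c / 2 + κ - q z)) z := by
      intro z
      have h1 : HasDerivAt (fun z : ℝ => Real.exp ((c / 2 + κ) * z))
          (Real.exp ((c / 2 + κ) * z) * (c / 2 + κ)) z := by
        have h2 : HasDerivAt (fun z : ℝ => (c / 2 + κ) * z) (c / 2 + κ) z := by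
          simpa using (hasDerivAt_id z).const_mul (c / 2 + κ)
        exact h2.exp
      have h3 := (hd1 z).mul h1
      have e1 : deriv φ z * Real.exp ((c / 2 + κ) * z) +
          φ z * (Real.exp ((c / 2 + κ) * z) * (c / 2 + κ)) =
          φ z * Real.exp ((c / 2 + κ) * z) * (c / 2 + κ - q z) := by
        have h4 : deriv φ z = -(q z * φ z) := by
          rw [hq]
          have := (hpos z).ne'
          field_simp
        rw [h4]; ring
      rw [← e1]
      exact h3
    have hmono : MonotoneOn g (Ici z1) := by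
      apply monotoneOn_of_deriv_nonneg (convex_Ici z1)
      · exact fun z _ => (hg' z).continuousAt.continuousWithinAt
      · exact fun z _ => (hg' z).differentiableAt.differentiableWithinAt
      · intro z hz
        rw [interior_Ici] at hz
        rw [(hg' z).deriv]
        have h1 := hno z hz.le
        have h2 := hpos z
        have h3 := Real.exp_pos ((c / 2 + κ) * z)
        apply mul_nonneg (by positivity)
        linarith
    obtain ⟨C, hC⟩ := h.decay
    have hgle : ∀ z, g z ≤ C * Real.exp (-κ * z) := by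
      intro z
      have h1 := mul_le_mul_of_nonneg_right (hC z) (Real.exp_pos ((c / 2 + κ) * z)).le
      have e1 : C * Real.exp (-lam * z) * Real.exp ((c / 2 + κ) * z) = C * Real.exp (-κ * z) := by
        rw [mul_assoc, ← Real.exp_add]
        congr 2
        rw [hκ]; ring
      rw [e1] at h1
      exact h1
    have hlim : Tendsto (fun z : ℝ => C * Real.exp (-κ * z)) atTop (𝓝 (C * 0)) := by
      apply Tendsto.const_mul
      apply Real.tendsto_exp_atBot.comp
      exact tendsto_id.const_mul_atTop_of_neg (by linarith)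
    rw [mul_zero] at hlim
    have hg1 : 0 < g z1 := by
      have := hpos z1
      simp only [hg]; positivity
    have h5 : g z1 ≤ 0 := by
      apply ge_of_tendsto hlim
      filter_upwards [eventually_ge_atTop z1] with z hz
      exact (hmono self_mem_Ici hz hz).trans (hgle z)
    linarith
  -- `q ≥ c / 2 + κ` from then on
  have hqge : ∀ z ≥ z2, c / 2 + κ ≤ q z := by
    intro z hz
    have h1 := image_le_of_deriv_right_lt_deriv_boundary (f := fun z => -(q z))
      (f' := fun z => -(q z ^ 2 - c * q z + f (φ z) / φ z)) (a := z2) (b := z)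
      (B := fun _ => -(c / 2 + κ)) (B' := fun _ => 0)
      (fun y _ => (hq' y).neg.continuousAt.continuousWithinAt)
      (fun y _ => (hq' y).neg.hasDerivWithinAt) (by simpa using hz2)
      (fun y => hasDerivAt_const y _) (by
        intro y hy heq
        have h2 : q y = c / 2 + κ := by linarith
        have h3 := hfφ y (hz12.trans hy.1)
        rw [h2]
        nlinarith [sq_pos_of_pos hκ0])
    have h2 : -(q z) ≤ -(c / 2 + κ) := h1 (right_mem_Icc.2 hz)
    linarith
  -- blow up of `q - c / 2`
  set r : ℝ → ℝ := fun z => q z - c / 2 with hr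
  have hrκ : ∀ z ≥ z2, κ ≤ r z := fun z hz => by
    have := hqge z hz
    simp only [hr]; linarith
  have hr' : ∀ z, HasDerivAt r (q z ^ 2 - c * q z + f (φ z) / φ z) z := fun z =>
    (hq' z).sub_const _
  have hr2 : ∀ z ≥ z2, r z ^ 2 / 2 ≤ q z ^ 2 - c * q z + f (φ z) / φ z := by
    intro z hz
    have h1 := hfφ z (hz12.trans hz)
    have h2 := hrκ z hz
    have h3 : q z = r z + c / 2 := by simp only [hr]; ring
    rw [h3]
    nlinarith
  set H : ℝ → ℝ := fun z => (r z)⁻¹ + (z - z2) / 2 with hH
  have hH' : ∀ z ≥ z2, HasDerivAt H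
      (-(q z ^ 2 - c * q z + f (φ z) / φ z) / r z ^ 2 + 1 / 2) z := by
    intro z hz
    have h1 : r z ≠ 0 := by have := hrκ z hz; linarith
    have h2 := (hr' z).inv h1
    have h3 : HasDerivAt (fun z => (z - z2) / 2) (1 / 2) z :=
      ((hasDerivAt_id z).sub_const z2).div_const 2
    exact h2.add h3
  have hanti : AntitoneOn H (Ici z2) := by
    apply antitoneOn_of_deriv_nonpos (convex_Ici z2)
    · exact fun z hz => (hH' z hz).continuousAt.continuousWithinAt
    · intro z hz
      rw [interior_Ici] at hz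
      exact (hH' z hz.le).differentiableAt.differentiableWithinAt
    · intro z hz
      rw [interior_Ici] at hz
      rw [(hH' z hz.le).deriv]
      have h1 := hr2 z hz.le
      have h20 : 0 < r z := by have := hrκ z hz.le; linarith
      have h2 : 0 < r z ^ 2 := by positivity
      rw [neg_div]
      have h3 : 1 / 2 ≤ (q z ^ 2 - c * q z + f (φ z) / φ z) / r z ^ 2 := by
        rw [le_div_iff₀ h2]; linarith
      linarith
  have hz3 : z2 ≤ z2 + 2 / κ + 1 := by
    have : 0 < 2 / κ := by positivity
    linarith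
  have h6 := hanti self_mem_Ici hz3 hz3
  simp only [hH] at h6
  have h7 : (r z2)⁻¹ ≤ κ⁻¹ := inv_anti₀ hκ0 (hrκ z2 le_rfl)
  have h8 : 0 < (r (z2 + 2 / κ + 1))⁻¹ := by
    have := hrκ _ hz3
    have h9 : 0 < r (z2 + 2 / κ + 1) := by linarith
    positivity
  have h9 : (2 / κ : ℝ) / 2 = κ⁻¹ := by field_simp
  have h10 : (z2 + 2 / κ + 1 - z2) / 2 = κ⁻¹ + 1 / 2 := by rw [← h9]; ring
  rw [h10, sub_self, zero_div, add_zero] at h6
  linarith

end Pool.Agent.H33.RD
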