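import Mathlib
import Pool.Agent.H91.RD.Targets2
import Pool.Agent.H73.RD.UPT
import Pool.Agent.H58.RD.RSC

/-!
# MP_609556_an: retreat property, induction step (`T_UPS`)
-/

open MeasureTheory Set Filter Topology Metric

namespace Pool.Agent.H33.RD

open Pool.Agent.H91.RD Pool.Agent.H73.RD

/-- the translate in time of a classical solution: regularity facts -/
theorem cls_shift_cont {N : ℕ} {f : ℝ → ℝ} {u : ℝ → E N → ℝ} (hu : Cls f u) {t0 σ : ℝ}
    (ht0 : 0 < t0) :
    ContinuousOn (fun p : ℝ × E N => u (t0 + p.1) p.2) (Icc 0 σ ×ˢ univ) := by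
  have h1 : ContinuousOn (fun p : ℝ × E N => ((t0 + p.1, p.2) : ℝ × E N)) (Icc 0 σ ×ˢ univ) := by
    fun_prop
  have h2 : MapsTo (fun p : ℝ × E N => ((t0 + p.1, p.2) : ℝ × E N)) (Icc 0 σ ×ˢ univ)
      (Ioi 0 ×ˢ univ) := by
    rintro ⟨a, b⟩ ⟨ha, _⟩
    refine ⟨?_, mem_univ _⟩
    simp only [mem_Icc] at ha
    simp only [mem_Ioi]
    linarith [ha.1]
  exact hu.cont.comp h1 h2

theorem cls_shift_dt {N : ℕ} {f : ℝ → ℝ} {u : ℝ → E N → ℝ} (hu : Cls f u) {t0 t : ℝ}
    (ht : 0 < t0 + t) (x : E N) : DifferentiableAt ℝ (fun s => u (t0 + s) x) t := by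
  have := hu.dt (t0 + t) ht x
  exact DifferentiableAt.comp t this (by fun_prop)

theorem lap_sub_const {N : ℕ} {g : E N → ℝ} {x : E N} (b : ℝ) (hg : ContDiffAt ℝ 2 g x) :
    Laplacian.laplacian (fun y => g y - b) x = Laplacian.laplacian g x := by
  have h2 : ContDiffAt ℝ 2 (fun _ : E N => b) x := contDiffAt_const
  rw [Pool.Agent.H73.RD.lap_sub hg h2]
  have : Laplacian.laplacian (fun _ : E N => b) x = 0 := by simp
  rw [this, sub_zero]

/-- UPS -/
theorem ups (hF : T_FRP) (hB : T_P2G) (hX : T_RX) (hR : T_RAD) (hM : T_MP0) (hS : T_RSC) :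
    T_UPS := by
  intro N f φ a b c cn K k μ η0 θ lam hN hlev hb1 hcn0 hcnc hUp CT η' hCT hη'
  have hyp := hlev.hyp
  have hab := hlev.ab
  set Δ : ℝ := b - a with hΔdef
  have hΔ : 0 < Δ := by rw [hΔdef]; linarith
  have hΔ1 : Δ ≤ 1 := by rw [hΔdef]; linarith [hlev.a0]
  have hη0 := hyp.eta0
  have hη18 := hyp.eta1
  have hμ := hyp.mu0
  have hc := hyp.front.cpos
  obtain ⟨β, C, hfr⟩ := hF _ φ c lam K k μ η0 θ hyp
  have hFl : ∀ s t, |resc f a b s - resc f a b t| ≤ K * |s - t| := resc_lip hlev.toLip hab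
  have htop := hlev.top hb1
  set c2 : ℝ := (cn + c) / 2 with hc2
  have hc2n : cn < c2 := by rw [hc2]; linarith
  have hc2c : c2 < c := by rw [hc2]; linarith
  have hc20 : 0 < c2 := by linarith
  obtain ⟨ν, hν, hRX⟩ := hX N μ c2 (Δ * η0) hN hμ (by positivity)
  set D : ℝ := max 1 (1 / ν) with hD
  have hD1 : 1 ≤ D := le_max_left _ _
  have hDν : 1 / ν ≤ D := le_max_right _ _
  have hCT' : 1 ≤ CT / Δ := by rw [le_div_iff₀ hΔ]; linarith
  have hη1 : 0 < η' / Δ := div_pos hη' hΔ
  obtain ⟨a0, K5', ha0, hK5', hB'⟩ := hB N _ (resc f a b) φ c lam K k μ η0 θ β C (1 + η0) hN hyp hfr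
    hFl (fun s hs => rcut_eq s hs) (by linarith) htop (CT / Δ) (η' / Δ) D hCT' hη1 hD1
  obtain ⟨K5b, hK5b, hUp'⟩ := hUp 1 (Δ * η0) le_rfl (by positivity)
  set Cb : ℝ := K5b + K5b ^ 2 / (4 * (c2 - cn)) + 1 with hCb
  have hfrac : 0 ≤ K5b ^ 2 / (4 * (c2 - cn)) :=
    div_nonneg (sq_nonneg _) (by linarith)
  have hCb0 : 0 < Cb := by rw [hCb]; linarith
  set LL : ℝ := 2 / c * Real.log (CT / Δ) with hLL
  have hlog0 : 0 ≤ Real.log (CT / Δ) := Real.log_nonneg hCT'
  have hLL0 : 0 ≤ LL := by rw [hLL]; positivity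
  refine ⟨K5' + LL + Cb, by linarith, ?_⟩
  intro u hu hu01 t0 ht0 x0 σ hσ R hRσ hsmall
  have hsq : 0 ≤ √σ := Real.sqrt_nonneg σ
  set R4 : ℝ := R - LL with hR4
  set R2 : ℝ := R4 - Cb with hR2
  have hR2σ : c * σ + K5' * (1 + √σ) ≤ R2 := by
    rw [hR2, hR4]
    nlinarith [mul_nonneg hLL0 hsq, mul_nonneg hCb0.le hsq]
  -- `u t0 ≤ b` in the ball of radius `R4`
  have hu0 : ∀ y, dist y x0 ≤ R4 → u t0 y ≤ b := by
    intro y hy
    have h1 := hsmall y
    have h2 : Real.exp (-(c / 2 * (R - dist y x0))) ≤ Real.exp (-Real.log (CT / Δ)) := by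
      apply Real.exp_le_exp.2
      have h3 : LL ≤ R - dist y x0 := by linarith
      have h4 : c / 2 * LL ≤ c / 2 * (R - dist y x0) := mul_le_mul_of_nonneg_left h3 (by linarith)
      have h5 : c / 2 * LL = Real.log (CT / Δ) := by
        rw [hLL]; field_simp
      linarith
    have h6 : Real.exp (-Real.log (CT / Δ)) = Δ / CT := by
      rw [Real.exp_neg, Real.exp_log (by positivity), inv_div]
    rw [h6] at h2
    have h7 : CT * Real.exp (-(c / 2 * (R - dist y x0))) ≤ CT * (Δ / CT) :=
      mul_le_mul_of_nonneg_left h2 (by linarith)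
    have h8 : CT * (Δ / CT) = Δ := by field_simp
    rw [h8] at h7
    linarith
  -- step 1: `u ≤ b + Δ η0` in the moving ball
  have step1 : ∀ t ∈ Icc 0 σ, ∀ x, dist x x0 ≤ R2 - c2 * t → u (t0 + t) x - b ≤ Δ * η0 := by
    intro t ht x hx
    rcases ht.1.lt_or_eq with htpos | hteq
    swap
    · rw [← hteq, mul_zero, sub_zero] at hx
      rw [← hteq, add_zero]
      have h1 := hu0 x (by rw [hR2] at hx; linarith)
      have h2 : 0 < Δ * η0 := by positivity
      linarith
    · have hst : 0 ≤ √t := Real.sqrt_nonneg t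
      have hstt : √t * √t = t := Real.mul_self_sqrt htpos.le
      have h1 : cn * t + K5b * (1 + √t) ≤ R4 - dist x x0 := by
        have h2 : Cb + c2 * t ≤ R4 - dist x x0 := by rw [hR2] at hx; linarith
        have h3 : K5b * √t ≤ (c2 - cn) * t + K5b ^ 2 / (4 * (c2 - cn)) := by
          have h4 : 0 < c2 - cn := by linarith
          have h5 : (c2 - cn) * t + K5b ^ 2 / (4 * (c2 - cn)) - K5b * √t =
              (2 * (c2 - cn) * √t - K5b) ^ 2 / (4 * (c2 - cn)) := by
            field_simp
            nlinarith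
          have h6 : 0 ≤ (2 * (c2 - cn) * √t - K5b) ^ 2 / (4 * (c2 - cn)) :=
            div_nonneg (sq_nonneg _) (by linarith)
          linarith
        rw [hCb] at h2
        linarith
      have h2 := hUp' u hu hu01 t0 ht0 x t htpos (R4 - dist x x0) h1 (by
        intro y
        rw [one_mul]
        by_cases hy : dist y x0 ≤ R4
        · have h3 := hu0 y hy
          have h4 := Real.exp_pos (-(cn / 2 * (R4 - dist x x0 - dist y x)))
          linarith
        · push Not at hy
          have h3 : R4 - dist x x0 - dist y x ≤ 0 := by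
            have := dist_triangle y x x0
            linarith
          have h4 : 1 ≤ Real.exp (-(cn / 2 * (R4 - dist x x0 - dist y x))) := by
            apply Real.one_le_exp
            nlinarith
          have h5 := (hu01 t0 ht0 y).2
          have h6 : 0 ≤ b := by linarith [hlev.a0]
          linarith)
      linarith
  -- step 2: relaxation
  have hfb : ∀ w, 0 < w → w ≤ Δ * η0 → f (b + w) ≤ -(μ * w) := by
    intro w hw hw'
    have h1 := htop 1 (1 + w / Δ) (by linarith) (by
      have : 0 ≤ w / Δ := by positivity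
      linarith) (by
      have : w / Δ ≤ η0 := by rw [div_le_iff₀ hΔ]; linarith
      linarith)
    have h2 : resc f a b 1 = 0 := by
      unfold resc
      rw [mul_one, show a + (b - a) = b by ring, hlev.fb, mul_zero]
    have h3 : resc f a b (1 + w / Δ) = Δ⁻¹ * f (b + w) := by
      unfold resc
      congr 2
      rw [← hΔdef, mul_add, mul_one, mul_div_cancel₀ _ hΔ.ne', hΔdef]
      ring
    rw [h2, h3, sub_zero] at h1
    have h4 : Δ * (Δ⁻¹ * f (b + w)) ≤ Δ * -(μ * (1 + w / Δ - 1)) :=
      mul_le_mul_of_nonneg_left h1 hΔ.le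
    have h5 : Δ * (Δ⁻¹ * f (b + w)) = f (b + w) := by field_simp
    have h6 : Δ * -(μ * (1 + w / Δ - 1)) = -(μ * w) := by field_simp; ring
    rw [h5, h6] at h4
    exact h4
  have step2 := hRX (fun t x => u (t0 + t) x - b) x0 R2 σ 1 hσ
    (by
      intro t ht x
      have h1 := hu01 (t0 + t) (by linarith [ht.1]) x
      have h2 : 0 ≤ b := by linarith [hlev.a0]
      rw [abs_le]
      constructor <;> linarith)
    ((cls_shift_cont hu ht0).sub continuousOn_const)
    (by
      intro t ht
      exact (hu.c2 (t0 + t) (by linarith [ht.1])).sub contDiff_const)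
    (by
      intro t ht x
      exact (cls_shift_dt hu (by linarith [ht.1]) x).sub_const b)
    (by
      intro t ht x h1 h2
      have htp : 0 < t0 + t := by linarith [ht.1]
      rw [lap_sub_const b (hu.c2 _ htp).contDiffAt]
      have e1 : deriv (fun s => u (t0 + s) x - b) t = deriv (fun s => u s x) (t0 + t) := by
        rw [deriv_sub_const]
        exact deriv_comp_const_add (fun s => u s x) t0 t
      rw [e1, hu.eqn _ htp x]
      have h3 := hfb (u (t0 + t) x - b) h1 h2
      rw [show b + (u (t0 + t) x - b) = u (t0 + t) x by ring] at h3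
      linarith)
    (by
      intro x hx
      simp only [add_zero]
      have := hu0 x (by rw [hR2] at hx; linarith)
      linarith)
    step1
  -- step 3: the barrier
  obtain ⟨S, q, R3, hq0, hq1, hR3σ, hR3R, hScont, hSC2, hSd, hS0, hSsup, hSinit, hSend, hSfar⟩ :=
    hB' σ hσ R2 hR2σ
  have hlogq : 0 ≤ Real.log (1 / q) := Real.log_nonneg (by rw [le_div_iff₀ hq0]; linarith)
  have hDlog : 0 ≤ D * Real.log (1 / q) := mul_nonneg (by linarith) hlogq
  have hR32 : R3 ≤ R2 := by
    have : 0 ≤ D * (1 + Real.log (1 / q)) := mul_nonneg (by linarith) (by linarith)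
    linarith
  have hap : 0 < a0 := by linarith
  have hv := hS N f a b u hab hu
  rw [← hΔdef] at hv
  set v : ℝ → E N → ℝ := fun t x => (u t x - a) / Δ with hvdef
  -- `V ≤ 1 + η0 q` in the small moving ball
  have hVle : ∀ t ∈ Icc 0 σ, ∀ x, dist x x0 ≤ R3 - c2 * t → v (t0 + t) x ≤ 1 + η0 * q := by
    intro t ht x hx
    have h1 : u (t0 + t) x - b ≤ Δ * η0 * Real.exp (ν * (1 + dist x x0 - (R2 - c2 * t))) :=
      step2 t ht x (by linarith)
    have h2 : Real.exp (ν * (1 + dist x x0 - (R2 - c2 * t))) ≤ q := by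
      have h3 : 1 + dist x x0 - (R2 - c2 * t) ≤ -(D * Real.log (1 / q)) := by
        have : R3 - R2 ≤ -(D + D * Real.log (1 / q)) := by linarith
        linarith
      have h4 : 1 / ν * Real.log (1 / q) ≤ D * Real.log (1 / q) :=
        mul_le_mul_of_nonneg_right hDν hlogq
      have h5 : ν * (1 + dist x x0 - (R2 - c2 * t)) ≤ ν * -(1 / ν * Real.log (1 / q)) :=
        mul_le_mul_of_nonneg_left (by linarith) hν.le
      have h6 : ν * -(1 / ν * Real.log (1 / q)) = Real.log q := by
        rw [one_div q, Real.log_inv]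
        field_simp
      rw [h6] at h5
      calc Real.exp (ν * (1 + dist x x0 - (R2 - c2 * t))) ≤ Real.exp (Real.log q) :=
            Real.exp_le_exp.2 h5
        _ = q := Real.exp_log hq0
    have h3 : Δ * η0 * Real.exp (ν * (1 + dist x x0 - (R2 - c2 * t))) ≤ Δ * η0 * q :=
      mul_le_mul_of_nonneg_left h2 (by positivity)
    simp only [hvdef]
    rw [div_le_iff₀ hΔ]
    have h4 : (1 + η0 * q) * Δ = Δ + Δ * η0 * q := by ring
    rw [h4]
    linarith
  set r : E N → ℝ := fun x => √(a0 ^ 2 + ‖x - x0‖ ^ 2) with hr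
  have hra : ∀ x, a0 ≤ r x := fun x => le_rad x0 x
  have hrd : ∀ x, dist x x0 ≤ r x := fun x => by
    rw [dist_eq_norm]; exact norm_le_rad a0 x0 x
  have hrc : Continuous r := continuous_rad a0 x0
  have hSr : ContinuousOn (fun p : ℝ × E N => S p.1 (r p.2)) (Icc 0 σ ×ˢ univ) := by
    have h1 : ContinuousOn (fun p : ℝ × E N => ((p.1, r p.2) : ℝ × ℝ)) (Icc 0 σ ×ˢ univ) :=
      (continuous_fst.prodMk (hrc.comp continuous_snd)).continuousOn
    have h2 : MapsTo (fun p : ℝ × E N => ((p.1, r p.2) : ℝ × ℝ)) (Icc 0 σ ×ˢ univ)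
        (Icc 0 σ ×ˢ univ) := by
      rintro ⟨a, b⟩ ⟨ha, _⟩
      exact ⟨ha, mem_univ _⟩
    exact hScont.comp h1 h2
  -- on the sphere and beyond
  have hge : ∀ t ∈ Icc 0 σ, ∀ x, R3 - c2 * t ≤ dist x x0 → 1 + q ≤ S t (r x) := by
    intro t ht x hx
    apply hSfar t ht
    have h1 := hrd x
    have h2 : c2 * t ≤ c * t := mul_le_mul_of_nonneg_right hc2c.le ht.1
    linarith
  have hqη : η0 * q < q := by nlinarith
  have key := hM N K 0 σ ((1 - a) / Δ) (fun t x => if dist x x0 ≤ R3 - c2 * t then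
      min (S t (r x) - v (t0 + t) x) 0 else 0) hyp.toLip.K0.le hσ ?_ ?_ ?_ ?_ σ
      ⟨hσ.le, le_rfl⟩ x0
  · have h1 : r x0 = a0 := by
      simp only [hr]
      rw [sub_self, norm_zero, zero_pow two_ne_zero, add_zero]
      exact Real.sqrt_sq hap.le
    have h0 : dist x0 x0 ≤ R3 - c2 * σ := by
      rw [dist_self]
      nlinarith
    rw [if_pos h0, h1] at key
    have h2 := (le_min_iff.1 key).1
    have h3 : v (t0 + σ) x0 ≤ η' / Δ := by linarith
    have h4 : (u (t0 + σ) x0 - a) / Δ ≤ η' / Δ := h3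
    rw [div_le_div_iff_of_pos_right hΔ] at h4
    linarith
  · -- continuity
    refine ContinuousOn.if (p := fun p : ℝ × E N => dist p.2 x0 ≤ R3 - c2 * p.1) ?_ ?_ ?_
    · rintro ⟨s, y⟩ ⟨⟨hs, _⟩, hfr⟩
      have h1 := frontier_le_subset_eq (f := fun p : ℝ × E N => dist p.2 x0)
        (g := fun p : ℝ × E N => R3 - c2 * p.1) (by fun_prop) (by fun_prop) hfr
      have h2 : dist y x0 = R3 - c2 * s := h1
      have h3 := hge s hs y h2.ge
      have h4 := hVle s hs y h2.le
      exact min_eq_right (by linarith)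
    · refine ContinuousOn.mono ?_ inter_subset_left
      refine ContinuousOn.inf ?_ continuousOn_const
      exact hSr.sub (cls_shift_cont hv ht0)
    · exact continuousOn_const
  · -- lower bound
    intro t ht x
    have hB0 : 0 ≤ (1 - a) / Δ := div_nonneg (by linarith) hΔ.le
    split_ifs with h
    · have h1 := hS0 t ht (r x)
      have h2 : v (t0 + t) x ≤ (1 - a) / Δ := by
        simp only [hvdef]
        rw [div_le_div_iff_of_pos_right hΔ]
        linarith [(hu01 (t0 + t) (by linarith [ht.1]) x).2]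
      exact le_min (by linarith) (by linarith)
    · linarith
  · -- differential inequality
    intro t ht x hz
    have ht' : t ∈ Icc 0 σ := ⟨ht.1.le, ht.2⟩
    have htp : 0 < t0 + t := by linarith [ht.1]
    by_cases hin : dist x x0 ≤ R3 - c2 * t
    swap
    · rw [if_neg hin] at hz
      exact absurd hz (lt_irrefl _)
    rw [if_pos hin] at hz
    have hz' : S t (r x) - v (t0 + t) x < 0 := by
      rcases min_lt_iff.1 hz with h | h
      · exact h
      · exact absurd h (lt_irrefl _)
    have hV := hVle t ht' x hin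
    have hlt : dist x x0 < R3 - c2 * t := by
      rcases hin.lt_or_eq with h | h
      · exact h
      · have := hge t ht' x h.ge
        linarith
    have hSr' := hR N a0 x0 (S t) hap (hSC2 t ht')
    have hd1 := cls_shift_dt hv htp x
    have hd2 := hSd t ht' (r x)
    have ev1 : (fun z => if dist z x0 ≤ R3 - c2 * t then
        min (S t (r z) - v (t0 + t) z) 0 else 0) =ᶠ[𝓝 x] fun z => S t (r z) - v (t0 + t) z := by
      have c1 : ContinuousAt (fun z : E N => dist z x0) x := by fun_prop
      have c2' : ContinuousAt (fun z : E N => S t (r z) - v (t0 + t) z) x := by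
        refine ContinuousAt.sub ?_ (hv.c2 _ htp).continuous.continuousAt
        exact ((hSC2 t ht').continuous.comp hrc).continuousAt
      filter_upwards [c1.eventually (gt_mem_nhds hlt), c2'.eventually (gt_mem_nhds hz')]
        with z h1 h2
      rw [if_pos h1.le, min_eq_left h2.le]
    have ev2 : (fun p => if dist x x0 ≤ R3 - c2 * p then
        min (S p (r x) - v (t0 + p) x) 0 else 0) =ᶠ[𝓝 t] fun p => S p (r x) - v (t0 + p) x := by
      have c1 : ContinuousAt (fun p : ℝ => R3 - c2 * p) t := by fun_prop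
      have c2' : ContinuousAt (fun p : ℝ => S p (r x) - v (t0 + p) x) t :=
        hd2.continuousAt.sub hd1.continuousAt
      filter_upwards [c1.eventually (lt_mem_nhds hlt), c2'.eventually (gt_mem_nhds hz')]
        with p h1 h2
      rw [if_pos h1.le, min_eq_left h2.le]
    refine ⟨?_, ?_, ?_⟩
    · exact (hSr'.1.contDiffAt.sub (hv.c2 _ htp).contDiffAt).congr_of_eventuallyEq ev1
    · exact (hd2.sub hd1).congr_of_eventuallyEq ev2
    · have l1 := InnerProductSpace.laplacian_congr_nhds ev1
      have e1 : deriv (fun s => S s (r x) - v (t0 + s) x) t =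
          deriv (fun s => S s (r x)) t - deriv (fun s => v s x) (t0 + t) := by
        rw [show (fun s => S s (r x) - v (t0 + s) x) =
          (fun s => S s (r x)) - (fun s => v (t0 + s) x) from rfl, deriv_sub hd2 hd1]
        congr 1
        exact deriv_comp_const_add (fun s => v s x) t0 t
      rw [ev2.deriv_eq, l1.eq_of_nhds, lap_sub hSr'.1.contDiffAt (hv.c2 _ htp).contDiffAt,
        hSr'.2 x, e1]
      simp only [if_pos hin, min_eq_left hz'.le]
      have hS1 : S t (r x) < 1 + η0 := by nlinarith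
      have h1 := hv.eqn _ htp x
      have h2 := hSsup t ht' (r x) (hra x) hS1
      have h3 := hFl (S t (r x)) (v (t0 + t) x)
      rw [abs_of_neg hz'] at h3
      have h4 := (abs_le.1 h3).1
      have h5 : √(a0 ^ 2 + ‖x - x0‖ ^ 2) = r x := rfl
      rw [h5, h1]
      nlinarith
  · -- initial time
    intro x
    split_ifs with h
    · rw [mul_zero, sub_zero] at h
      simp only [add_zero]
      have h1 : v t0 x ≤ 1 := by
        simp only [hvdef]
        rw [div_le_one hΔ]
        have := hu0 x (by rw [hR2] at hR32; linarith)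
        linarith
      have h2 := hsmall x
      have h3 := hSinit (r x)
      have h5 : CT / Δ * Real.exp (-(c / 2 * (R - dist x x0))) ≤
          CT / Δ * Real.exp (-(c / 2 * (R2 - r x))) := by
        apply mul_le_mul_of_nonneg_left _ (by linarith)
        apply Real.exp_le_exp.2
        have h6 := hrd x
        have h7 : R2 ≤ R := by rw [hR2, hR4]; linarith
        nlinarith
      have h7 : v t0 x ≤ CT / Δ * Real.exp (-(c / 2 * (R - dist x x0))) := by
        simp only [hvdef]
        rw [div_mul_eq_mul_div, div_le_div_iff_of_pos_right hΔ]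
        linarith
      have h6 : v t0 x ≤ min 1 (CT / Δ * Real.exp (-(c / 2 * (R2 - r x)))) :=
        le_min h1 (h7.trans h5)
      exact le_min (by linarith) le_rfl
    · exact le_rfl

end Pool.Agent.H33.RD
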