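import Mathlib
import Pool.Agent.H91.RD.Targets2
import Pool.Agent.H73.RD.KBOX
import Pool.Agent.H33.RD.UPS

/-!
# MP_609556_an: expansion property of a lowest level of KPP type (`T_LOWK`)

`kboxC` is adapted from `Pool/Agent/H73/RD/KBOX.lean` (helper73).
-/

open MeasureTheory Set Filter Topology Metric

namespace Pool.Agent.H33.RD

open Pool.Agent.H91.RD Pool.Agent.H73.RD

/-- KBOX for classical solutions with values in `[0,1]` -/
theorem kboxC (hM : T_MP0) (N : ℕ) (f : ℝ → ℝ) (K m b : ℝ) (hL : Lip f K) (_hm : 0 < m)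
    (hlin : ∀ ε > 0, ∃ s1 > 0, ∀ s ∈ Icc 0 s1, (m - ε) * s ≤ f s) (hb : 0 < b)
    (hbm : b ^ 2 < 4 * m) :
    ∃ R > 0, ∀ δ > 0, ∃ δ' > 0, ∀ u : ℝ → E N → ℝ, Cls f u →
      (∀ t > 0, ∀ x, 0 ≤ u t x ∧ u t x ≤ 1) → ∀ t0 > 0, ∀ x0,
      (∀ y ∈ closedBall x0 R, δ ≤ u t0 y) →
      ∀ s ≥ 0, ∀ y, dist x0 y ≤ b * s → δ' ≤ u (t0 + s) y := by
  set ε : ℝ := (4 * m - b ^ 2) / 8 with hε
  have hεp : 0 < ε := by rw [hε]; linarith
  obtain ⟨s1, hs1, hf⟩ := hlin ε hεp
  set l : ℝ := 1 + (N + 2) ^ 2 / ε with hl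
  have hl1 : 1 ≤ l := by
    rw [hl]
    have : 0 ≤ ((N : ℝ) + 2) ^ 2 / ε := by positivity
    linarith
  have hlp : 0 < l := by linarith
  set L : ℝ := l ^ 2 with hLdef
  have hLp : 0 < L := by positivity
  have hεL : ((N : ℝ) + 2) ^ 2 ≤ ε * L := by
    have h1 : ε * l = ε + (N + 2) ^ 2 := by
      rw [hl]; field_simp
    have h2 : l ≤ L := by rw [hLdef]; nlinarith
    have h3 : ε * l ≤ ε * L := mul_le_mul_of_nonneg_left h2 hεp.le
    linarith
  refine ⟨l, hlp, ?_⟩
  intro δ hδ
  set q : ℝ := min s1 (min δ (1 / 2)) with hq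
  have hqp : 0 < q := by
    rw [hq]
    exact lt_min hs1 (lt_min hδ (by norm_num))
  have hqs : q ≤ s1 := min_le_left _ _
  have hqδ : q ≤ δ := (min_le_right _ _).trans (min_le_left _ _)
  have hq2 : q ≤ 1 / 2 := (min_le_right _ _).trans (min_le_right _ _)
  set κ : ℝ := q * Real.exp (-(b * l / 2)) with hκ
  have hκp : 0 < κ := by positivity
  have hκe : κ * Real.exp (b * l / 2) = q := by
    rw [hκ, mul_assoc, ← Real.exp_add, neg_add_cancel, Real.exp_zero, mul_one]
  have hκq : κ ≤ q := by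
    rw [hκ]
    have : Real.exp (-(b * l / 2)) ≤ 1 := by
      apply Real.exp_le_one_iff.2
      have : 0 ≤ b * l / 2 := by positivity
      linarith
    nlinarith
  refine ⟨κ, hκp, ?_⟩
  intro u hu hu01 t0 ht0 x0 hu0 s hs y hy
  have hunn : ∀ t > 0, ∀ x, 0 ≤ u t x := fun t ht x => (hu01 t ht x).1
  rcases hs.eq_or_lt with hs0 | hsp
  · subst hs0
    rw [mul_zero] at hy
    have : x0 = y := dist_le_zero.1 hy
    subst this
    rw [add_zero]
    exact (hκq.trans hqδ).trans (hu0 x0 (mem_closedBall_self hlp.le))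
  set V : E N := s⁻¹ • (y - x0) with hV
  have hVb : ‖V‖ ≤ b := by
    rw [hV, norm_smul, Real.norm_eq_abs, abs_of_pos (inv_pos.2 hsp), inv_mul_le_iff₀ hsp,
      ← dist_eq_norm, dist_comm, mul_comm]
    exact hy
  have hV2 : ‖V‖ ^ 2 ≤ b ^ 2 := pow_le_pow_left₀ (norm_nonneg _) hVb 2
  have hSq : ∀ p x, S0 κ L V p x ≤ q := by
    intro p x
    rw [← hκe]
    exact S0_le hκp.le hlp hLdef hVb
  have key := hM N K 0 s 1 (fun τ x => u (t0 + τ) x - S0 κ L V (x0 + τ • V) x) hL.K0.le hsp
    ?_ ?_ ?_ ?_ s ⟨hsp.le, le_rfl⟩ y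
  · have h1 : x0 + s • V = y := by
      rw [hV, smul_smul, mul_inv_cancel₀ hsp.ne', one_smul]
      abel
    have h2 : S0 κ L V (x0 + s • V) y = κ := by
      rw [h1]
      unfold S0
      simp
    rw [h2] at key
    linarith
  · -- continuity
    apply ContinuousOn.sub
    · have h1 : ContinuousOn (fun p : ℝ × E N => ((t0 + p.1, p.2) : ℝ × E N)) (Icc 0 s ×ˢ univ) := by
        fun_prop
      have h2 : MapsTo (fun p : ℝ × E N => ((t0 + p.1, p.2) : ℝ × E N)) (Icc 0 s ×ˢ univ)
          (Ioi 0 ×ˢ univ) := by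
        rintro ⟨a, b⟩ ⟨ha, _⟩
        refine ⟨?_, mem_univ _⟩
        simp only [mem_Icc] at ha
        simp only [mem_Ioi]
        linarith [ha.1]
      exact hu.cont.comp h1 h2
    · unfold S0
      apply Continuous.continuousOn
      have c1 : Continuous (fun p : ℝ × E N => p.2 - (x0 + p.1 • V)) := by fun_prop
      have c2 : Continuous (fun p : ℝ × E N => inner ℝ V (p.2 - (x0 + p.1 • V))) :=
        continuous_const.inner c1
      have c3 : Continuous (fun p : ℝ × E N => ‖p.2 - (x0 + p.1 • V)‖ ^ 2) := c1.norm.pow 2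
      have c4 : Continuous (fun p : ℝ × E N => max 0 (1 - ‖p.2 - (x0 + p.1 • V)‖ ^ 2 / L)) :=
        continuous_const.max (continuous_const.sub (c3.div_const L))
      exact (continuous_const.mul (Real.continuous_exp.comp (c2.neg.div_const 2))).mul (c4.pow 2)
  · -- lower bound
    intro t ht x
    have h1 := hunn (t0 + t) (by linarith [ht.1]) x
    have h2 := hSq (x0 + t • V) x
    linarith
  · -- differential inequality
    intro t ht x hz
    have htp : 0 < t0 + t := by linarith [ht.1]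
    have hup := hunn (t0 + t) htp x
    have hd1 : DifferentiableAt ℝ (fun s => u (t0 + s) x) t := by
      have := hu.dt (t0 + t) htp x
      exact DifferentiableAt.comp t this (by fun_prop)
    have hw : 0 < 1 - ‖x - (x0 + t • V)‖ ^ 2 / L := by
      by_contra hneg
      rw [S0_zero (not_lt.1 hneg)] at hz
      linarith
    have hSx : S0 κ L V (x0 + t • V) x = G0 κ L V (x0 + t • V) x := S0_eq hw
    have evx : S0 κ L V (x0 + t • V) =ᶠ[𝓝 x] G0 κ L V (x0 + t • V) := by
      have hc : Continuous (fun x : E N => 1 - ‖x - (x0 + t • V)‖ ^ 2 / L) := by fun_prop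
      filter_upwards [hc.continuousAt.eventually (lt_mem_nhds hw)] with x' hx'
      exact S0_eq hx'
    have evt : (fun τ : ℝ => S0 κ L V (x0 + τ • V) x) =ᶠ[𝓝 t]
        (fun τ : ℝ => G0 κ L V (x0 + τ • V) x) := by
      have hc : Continuous (fun τ : ℝ => 1 - ‖x - (x0 + τ • V)‖ ^ 2 / L) := by fun_prop
      filter_upwards [hc.continuousAt.eventually (lt_mem_nhds hw)] with x' hx'
      exact S0_eq hx'
    have hC : ContDiffAt ℝ 2 (S0 κ L V (x0 + t • V)) x :=
      (contDiff_G0 κ L V (x0 + t • V)).contDiffAt.congr_of_eventuallyEq evx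
    have hlap : Laplacian.laplacian (S0 κ L V (x0 + t • V)) x =
        Laplacian.laplacian (G0 κ L V (x0 + t • V)) x :=
      (InnerProductSpace.laplacian_congr_nhds evx).eq_of_nhds
    have hdt := (hasDerivAt_G0 κ L V x0 x t).congr_of_eventuallyEq evt
    refine ⟨?_, ?_, ?_⟩
    · exact (hu.c2 _ htp).contDiffAt.sub hC
    · exact hd1.sub hdt.differentiableAt
    · rw [lap_sub (hu.c2 _ htp).contDiffAt hC, hlap, lap_G0]
      have e1 : deriv (fun s => u (t0 + s) x - S0 κ L V (x0 + s • V) x) t =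
          deriv (fun s => u s x) (t0 + t) - deriv (fun s => S0 κ L V (x0 + s • V) x) t := by
        rw [show (fun s => u (t0 + s) x - S0 κ L V (x0 + s • V) x) =
          (fun s => u (t0 + s) x) - (fun s => S0 κ L V (x0 + s • V) x) from rfl,
          deriv_sub hd1 hdt.differentiableAt]
        congr 1
        exact deriv_comp_const_add (fun s => u s x) t0 t
      rw [e1, hdt.deriv, hu.eqn _ htp x]
      have h3 := hL.lip (u (t0 + t) x) (S0 κ L V (x0 + t • V) x)
      rw [abs_of_neg hz] at h3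
      have h4 := (abs_le.1 h3).1
      have h5 := hf (S0 κ L V (x0 + t • V) x) ⟨S0_nonneg hκp.le, (hSq _ _).trans hqs⟩
      -- the algebra
      have hGe : G0 κ L V (x0 + t • V) x = κ * Real.exp (-(inner ℝ V (x - (x0 + t • V))) / 2) *
        (1 - ‖x - (x0 + t • V)‖ ^ 2 / L) ^ 2 := rfl
      rw [hGe] at hSx
      set X := ‖x - (x0 + t • V)‖ ^ 2 with hX
      set w := 1 - X / L with hwdef
      set e := κ * Real.exp (-(inner ℝ V (x - (x0 + t • V))) / 2) with he
      have hep : 0 < e := by positivity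
      set J := inner ℝ V (x - (x0 + t • V)) with hJ
      have hXL : X = L * (1 - w) := by
        rw [hwdef]; field_simp; ring
      have hX2 : 8 * X / L ^ 2 = 8 * (1 - w) / L := by
        rw [hXL]; field_simp
      rw [hX2]
      have halg : ‖V‖ ^ 2 * w ^ 2 / 2 + 4 * w * J / L - (‖V‖ ^ 2 * w ^ 2 / 4 + 4 * w * J / L +
          8 * (1 - w) / L - 4 * N * w / L) ≤ (m - ε) * w ^ 2 := by
        have g1 : ‖V‖ ^ 2 * w ^ 2 / 4 ≤ (m - 2 * ε) * w ^ 2 := by
          have : ‖V‖ ^ 2 / 4 ≤ m - 2 * ε := by rw [hε]; linarith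
          nlinarith [sq_nonneg w]
        have g2 : 4 * N * w / L - 8 * (1 - w) / L ≤ ε * w ^ 2 := by
          rw [← sub_div, div_le_iff₀ hLp]
          have g3 : ((N : ℝ) + 2) ^ 2 * w ^ 2 ≤ ε * L * w ^ 2 :=
            mul_le_mul_of_nonneg_right hεL (sq_nonneg w)
          nlinarith [sq_nonneg (((N : ℝ) + 2) * w - 4), sq_nonneg (((N : ℝ) + 2) * w - 2)]
        have g4 : ‖V‖ ^ 2 * w ^ 2 / 2 + 4 * w * J / L - (‖V‖ ^ 2 * w ^ 2 / 4 + 4 * w * J / L +
          8 * (1 - w) / L - 4 * N * w / L) = ‖V‖ ^ 2 * w ^ 2 / 4 +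
            (4 * N * w / L - 8 * (1 - w) / L) := by ring
        rw [g4]
        linarith
      have h6 := mul_le_mul_of_nonneg_left halg hep.le
      have h7 : e * ((m - ε) * w ^ 2) = (m - ε) * S0 κ L V (x0 + t • V) x := by
        rw [hSx]; ring
      have h8 : e * (‖V‖ ^ 2 * w ^ 2 / 2 + 4 * w * J / L - (‖V‖ ^ 2 * w ^ 2 / 4 + 4 * w * J / L +
          8 * (1 - w) / L - 4 * N * w / L)) = e * (‖V‖ ^ 2 * w ^ 2 / 2 + 4 * w * J / L) -
          e * (‖V‖ ^ 2 * w ^ 2 / 4 + 4 * w * J / L + 8 * (1 - w) / L - 4 * N * w / L) := by ring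
      rw [h7, h8] at h6
      linarith
  · -- initial time
    intro x
    rw [add_zero, zero_smul, add_zero]
    by_cases hx : dist x x0 ≤ l
    · have h1 := hu0 x (mem_closedBall.2 hx)
      have h2 := hSq x0 x
      linarith
    · have h1 := hunn t0 ht0 x
      have h2 : S0 κ L V x0 x = 0 := by
        apply S0_zero
        have h3 : l ^ 2 ≤ ‖x - x0‖ ^ 2 := by
          apply pow_le_pow_left₀ hlp.le
          rw [← dist_eq_norm]
          exact (not_le.1 hx).le
        have h4 : 1 ≤ ‖x - x0‖ ^ 2 / L := by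
          rw [le_div_iff₀ hLp, one_mul]
          exact h3
        linarith
      rw [h2]
      linarith



/-- LOWK -/
theorem lowk (hM : T_MP0) (hS0 : T_ST0) : T_LOWK := by
  intro N f K m b c hN hL hm hlin hb hb1 hpos hc hcm δ hδ
  have hK0 := hL.K0
  -- the speed `b1`
  obtain ⟨b1, hcb1, hb1m⟩ : ∃ b1, c < b1 ∧ b1 ^ 2 < 4 * m := by
    have h1 : c < 2 * √m := by
      have h2 : (2 * √m) ^ 2 = 4 * m := by
        rw [mul_pow, Real.sq_sqrt hm.le]; norm_num
      exact lt_of_pow_lt_pow_left₀ 2 (by positivity) (by rw [h2]; exact hcm)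
    refine ⟨(c + 2 * √m) / 2, by linarith, ?_⟩
    have h3 : (c + 2 * √m) / 2 < 2 * √m := by linarith
    have h4 := pow_lt_pow_left₀ h3 (by positivity) (two_ne_zero)
    rw [mul_pow, Real.sq_sqrt hm.le] at h4
    linarith
  have hb10 : 0 < b1 := by linarith
  obtain ⟨R, hR0, hKB⟩ := kboxC hM N f K m b1 hL hm hlin hb10 hb1m
  obtain ⟨δ0, hδ0, hKB'⟩ := hKB (b / 2) (by linarith)
  set δ' : ℝ := min δ0 (b / 4) with hδ'
  have hδ'0 : 0 < δ' := lt_min hδ0 (by linarith)
  have hδ'b : δ' ≤ b / 4 := min_le_right _ _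
  set η : ℝ := min δ (b / 2) with hη
  have hη0 : 0 < η := lt_min hδ (by linarith)
  have hηδ : η ≤ δ := min_le_left _ _
  have hηb : η ≤ b / 2 := min_le_right _ _
  -- ignition
  have hfc : Continuous f := by
    have : LipschitzWith (Real.toNNReal K) f := LipschitzWith.of_dist_le_mul (by
      intro x y
      rw [Real.dist_eq, Real.dist_eq, Real.coe_toNNReal _ hK0.le]
      exact hL.lip x y)
    exact this.continuous
  obtain ⟨m0, hm0, hfm⟩ : ∃ m0 > 0, ∀ s ∈ Icc δ' (b - η / 2), m0 ≤ f s := by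
    have hne : (Icc δ' (b - η / 2)).Nonempty := ⟨δ', le_rfl, by linarith⟩
    obtain ⟨s1, hs1, hmin⟩ := isCompact_Icc.exists_isMinOn hne hfc.continuousOn
    refine ⟨f s1, hpos s1 ⟨by linarith [hs1.1], by linarith [hs1.2]⟩, ?_⟩
    intro s hs
    exact hmin hs
  obtain ⟨A, hA, hST⟩ := hS0 N K hN hK0
  set S : ℝ := (b - η / 2 - δ') / m0 with hS
  have hSpos : 0 < S := div_pos (by linarith) hm0
  have hSm : m0 * S = b - η / 2 - δ' := by rw [hS]; field_simp
  set L : ℝ := max 0 (1 + A * S - Real.log (η / 2)) with hLdef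
  have hL0 : 0 ≤ L := le_max_left _ _
  have hL1 : 1 + A * S - Real.log (η / 2) ≤ L := le_max_right _ _
  have ign : ∀ u : ℝ → E N → ℝ, Cls f u → (∀ t > 0, ∀ x, 0 ≤ u t x ∧ u t x ≤ 1) →
      ∀ t > 0, ∀ x0, (∀ y ∈ closedBall x0 L, δ' ≤ u t y) → b - η ≤ u (t + S) x0 := by
    intro u hu hu01 t0 ht0 x0 hball
    have hβ : ∀ t ∈ Icc 0 S, δ' + m0 * t ∈ Icc δ' (b - η / 2) := by
      intro t ht
      have h1 : 0 ≤ m0 * t := mul_nonneg hm0.le ht.1
      have h2 : m0 * t ≤ m0 * S := mul_le_mul_of_nonneg_left ht.2 hm0.le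
      exact ⟨by linarith, by linarith⟩
    have hd : ∀ t > 0, ∀ x, DifferentiableAt ℝ (fun s => u (t0 + s) x) t := fun t ht x =>
      cls_shift_dt hu (by linarith) x
    have key := hST (fun t x => (δ' + m0 * t) - u (t0 + t) x) x0 L S hSpos
      (by
        intro t ht x
        have h1 := (hβ t ht).2
        have h2 := (hu01 (t0 + t) (by linarith [ht.1]) x).1
        linarith)
      (by
        refine ⟨1, ?_⟩
        intro t ht x
        have h1 := hβ t ht
        have h2 := hu01 (t0 + t) (by linarith [ht.1]) x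
        rw [abs_le]
        constructor
        · linarith [h1.1, h2.2]
        · linarith [h1.2, h2.1])
      (by
        apply ContinuousOn.sub
        · apply Continuous.continuousOn
          fun_prop
        · exact cls_shift_cont hu ht0)
      (by
        intro t ht
        exact contDiff_const.sub (hu.c2 (t0 + t) (by linarith [ht.1])))
      (by
        intro t ht x
        exact DifferentiableAt.sub (by fun_prop) (hd t ht.1 x))
      (by
        intro t ht x hv
        have htp : 0 < t0 + t := by linarith [ht.1]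
        have hdt : DifferentiableAt ℝ (fun s : ℝ => δ' + m0 * s) t := by fun_prop
        have e1 : deriv (fun s => (δ' + m0 * s) - u (t0 + s) x) t =
            m0 - deriv (fun s => u s x) (t0 + t) := by
          rw [show (fun s => (δ' + m0 * s) - u (t0 + s) x) =
            (fun s => δ' + m0 * s) - (fun s => u (t0 + s) x) from rfl, deriv_sub hdt (hd t ht.1 x)]
          congr 1
          · have h1 : HasDerivAt (fun s : ℝ => δ' + m0 * s) m0 t := by
              simpa using ((hasDerivAt_id t).const_mul m0).const_add δ'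
            exact h1.deriv
          · exact deriv_comp_const_add (fun s => u s x) t0 t
        have e2 : Laplacian.laplacian (fun y => (δ' + m0 * t) - u (t0 + t) y) x =
            -Laplacian.laplacian (u (t0 + t)) x := by
          have h2 : ContDiffAt ℝ 2 (fun _ : E N => δ' + m0 * t) x := contDiffAt_const
          rw [Pool.Agent.H73.RD.lap_sub h2 (hu.c2 _ htp).contDiffAt]
          have : Laplacian.laplacian (fun _ : E N => δ' + m0 * t) x = 0 := by simp
          rw [this, zero_sub]
        rw [e1, e2, hu.eqn _ htp x]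
        have h3 := hfm _ (hβ t ⟨ht.1.le, ht.2⟩)
        have h4 := hL.lip (δ' + m0 * t) (u (t0 + t) x)
        rw [abs_of_pos hv] at h4
        have h5 := (abs_le.1 h4).2
        linarith)
      (by
        intro x hx
        have h1 := hball x (mem_closedBall.2 hx)
        simp only [mul_zero, add_zero]
        linarith)
      S ⟨hSpos.le, le_rfl⟩ x0
    have key' : (δ' + m0 * S) - u (t0 + S) x0 ≤ Real.exp (1 + dist x0 x0 - L + A * S) := key
    rw [dist_self] at key'
    have h1 : Real.exp (1 + 0 - L + A * S) ≤ η / 2 := by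
      calc Real.exp (1 + 0 - L + A * S) ≤ Real.exp (Real.log (η / 2)) :=
            Real.exp_le_exp.2 (by linarith)
        _ = η / 2 := Real.exp_log (by linarith)
    have h2 := key'.trans h1
    rw [hSm] at h2
    have h3 : δ' + (b - η / 2 - δ') - u (t0 + S) x0 = b - η / 2 - u (t0 + S) x0 := by ring
    rw [h3] at h2
    linarith
  -- conclusion
  set s0 : ℝ := max 1 ((b1 * S + L) / (b1 - c)) with hs0
  refine ⟨η, max R 1, 1, s0, hη0, hηδ, le_max_right _ _, le_rfl, le_max_left _ _, ?_⟩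
  intro u hu hu01 t0 ht0 x0 hball s hs y hy
  have hbc : 0 < b1 - c := by linarith
  have hs1 : b1 * S + L ≤ (b1 - c) * s := by
    have h1 : (b1 * S + L) / (b1 - c) ≤ s := (le_max_right _ _).trans hs
    rw [div_le_iff₀ hbc] at h1
    linarith
  have hs00 : 0 < s := by
    have : (1 : ℝ) ≤ s := (le_max_left _ _).trans hs
    linarith
  have hsS : 0 ≤ s - S := by
    by_contra hneg
    push Not at hneg
    have h1 : (b1 - c) * s ≤ b1 * s := mul_le_mul_of_nonneg_right (by linarith) hs00.le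
    have h2 : b1 * s < b1 * S := mul_lt_mul_of_pos_left (by linarith) hb10
    linarith
  have h1 := ign u hu hu01 (t0 + (s - S)) (by linarith) y (by
    intro z hz
    rw [mem_closedBall] at hz
    have h2 := hKB' u hu hu01 t0 ht0 x0 (by
      intro w hw
      have h3 := hball w (closedBall_subset_closedBall (le_max_left _ _) hw)
      linarith) (s - S) hsS z (by
      have h4 := dist_triangle x0 y z
      have h5 : dist y z = dist z y := dist_comm y z
      have h6 : 0 ≤ √s := Real.sqrt_nonneg s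
      have h7 : b1 * (s - S) = b1 * s - b1 * S := by ring
      have h8 : (b1 - c) * s = b1 * s - c * s := by ring
      linarith)
    exact (min_le_left _ _).trans h2)
  rw [show t0 + (s - S) + S = t0 + s by ring] at h1
  exact h1

end Pool.Agent.H33.RD
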