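import Pool.Agent.H82.RD.Targets
import Pool.Agent.H82.RD.Basic

/-!
# Row ZTV of the board rd82_modules: translations preserve degrees
-/

set_option autoImplicit false

open MvPolynomial

namespace Pool.Agent.H33.RD

open Pool.Agent.H82.RD

theorem ztv_prod {k : Type} [Field k] {u : ℕ} (w : Fin u → k) (m : Option (Fin u) →₀ ℕ)
    (s : Finset (Fin u)) :
    (∏ i ∈ s, (X (some i) + C (w i) : PR k u) ^ m (some i)) ∈
      VV k u (∑ i ∈ s, m (some i)) 0 := by
  classical
  induction s using Finset.induction_on with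
  | empty => simpa using C_mem_VV (u := u) 0 0 (1 : k)
  | insert i s hi ih =>
    rw [Finset.prod_insert hi, Finset.sum_insert hi]
    have h1 : (X (some i) + C (w i) : PR k u) ∈ VV k u 1 0 :=
      (VV k u 1 0).add_mem (X_some_mem_VV i) (C_mem_VV 1 0 (w i))
    have h2 := VV_pow h1 (m (some i))
    have h3 := VV_mul h2 ih
    simpa using h3

theorem pf_ZTV : T_ZTV := by
  classical
  intro k _ u a b w y f hf
  rw [mem_VV] at hf
  rw [f.as_sum, map_sum]
  refine Submodule.sum_mem _ fun m hm => ?_
  obtain ⟨h1, h2⟩ := hf m hm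
  have h3 : tr w y (monomial m (coeff m f)) =
      C (coeff m f) * ((C y * X none) ^ m none *
        ∏ i : Fin u, (X (some i) + C (w i) : PR k u) ^ m (some i)) := by
    unfold tr
    rw [aeval_monomial, Finsupp.prod_fintype _ _ (fun _ => pow_zero _), Fintype.prod_option]
    rfl
  rw [h3]
  have h4 : (C y * X none : PR k u) ∈ VV k u 0 1 := by
    simpa using VV_mul (C_mem_VV (u := u) 0 0 y) (X_none_mem_VV (k := k) (u := u))
  have h5 := VV_mul (C_mem_VV (u := u) 0 0 (coeff m f))
    (VV_mul (VV_pow h4 (m none)) (ztv_prod w m Finset.univ))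
  exact VV_mono (by simpa using h1) (by simpa using h2) h5

end Pool.Agent.H33.RD
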